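import Pool.Agent.H30.HSp

set_option autoImplicit false

namespace Pool.Agent.Results.MP_53bf97_gt.NotApo

open Set Filter Topology TopologicalSpace Pool.Agent.H30.HSp

def K : Set ℝ := insert 0 (range fun n : ℕ => 1 / ((n : ℝ) + 1))

/-- The harmonic fan. -/
def fan : Set (ℝ × ℝ) := (fun z : ℝ × ℝ => (z.2, z.2 * z.1)) '' (K ×ˢ Icc 0 1)

lemma mem {t s : ℝ} (ht : t ∈ K) (hs : s ∈ Icc (0 : ℝ) 1) : (s, s * t) ∈ fan := ⟨(t, s), ⟨ht, hs⟩, rfl⟩

lemma m0 : ((0 : ℝ), (0 : ℝ)) ∈ fan := by simpa using mem (Or.inl rfl) (left_mem_Icc.2 zero_le_one)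

lemma m1 {t : ℝ} (ht : t ∈ K) : ((1 : ℝ), t) ∈ fan := by simpa using mem ht (right_mem_Icc.2 zero_le_one)

instance : CompactSpace fan := isCompact_iff_compactSpace.1
  ((tendsto_one_div_add_atTop_nhds_zero_nat.isCompact_insert_range.prod isCompact_Icc).image (by fun_prop))

instance : ConnectedSpace fan := isConnected_iff_connectedSpace.1 ⟨⟨_, m0⟩, isPreconnected_of_forall (0, 0) (by
  rintro _ ⟨⟨t, s⟩, ⟨ht, hs⟩, rfl⟩
  exact ⟨(fun s => (s, s * t)) '' Icc 0 1, image_subset_iff.2 fun s hs => mem ht hs,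
    ⟨0, left_mem_Icc.2 zero_le_one, by simp⟩, ⟨s, hs, rfl⟩, isPreconnected_Icc.image _ (by fun_prop)⟩)⟩

noncomputable def pt (x : fan) : CX fan := ⟨{x}, isPreconnected_singleton⟩

theorem result : ∃ (X : Type) (_ : MetricSpace X) (_ : CompactSpace X) (_ : ConnectedSpace X) (_ : Nontrivial X)
    (p : X) (a b : HS p), a ≠ b ∧ ¬ ApoAt a b := by
  let p : fan := ⟨_, m0⟩
  have np : ∀ t (ht : t ∈ K), p ∉ ((pt ⟨_, m1 ht⟩).1 : Set fan) := fun t ht e => by
    have : p = ⟨_, m1 ht⟩ := e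
    simp [p] at this
  refine ⟨fan, inferInstance, inferInstance, inferInstance, ⟨p, ⟨_, m1 (Or.inl rfl)⟩, by simp [p]⟩, p,
    Quotient.mk _ (pt ⟨_, m1 (Or.inl rfl)⟩), Quotient.mk _ (pt p), fun e => ?_, fun ⟨M, _, M2, M3, M4⟩ => ?_⟩
  · rcases Quotient.exact e with e | e
    exacts [np _ (Or.inl rfl) (e ▸ rfl), np _ (Or.inl rfl) e.1]
  have c1 : Continuous fun x => Quotient.mk (rel p) (pt x) :=
    continuous_quotient_mk'.comp (NonemptyCompacts.continuous_singleton.subtype_mk _)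
  have t1 : Tendsto (fun n : ℕ => (⟨_, m1 (Or.inr ⟨n, rfl⟩)⟩ : fan)) atTop (𝓝 ⟨_, m1 (Or.inl rfl)⟩) :=
    tendsto_subtype_rng.2 (tendsto_const_nhds.prodMk_nhds tendsto_one_div_add_atTop_nhds_zero_nat)
  obtain ⟨n, hn⟩ := (((c1.tendsto _).comp t1).eventually (mem_interior_iff_mem_nhds.1 M3)).exists
  let c : ℝ := 1 / ((n : ℝ) + 3 / 2)
  have c0 : 0 < c := by positivity
  have c2 : c < 1 / ((n : ℝ) + 1) := one_div_lt_one_div_of_lt (by positivity) (by linarith)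
  have c3 : c ∉ K := by
    rintro (e | ⟨m, e⟩)
    · exact c0.ne' e
    have e1 : (2 * m : ℝ) = 2 * n + 1 := by
      have := congrArg (·⁻¹) e; simp only [c, one_div, inv_inv] at this; linarith
    norm_cast at e1; omega
  have op : ∀ O : Set fan, IsOpen O → p ∉ O → IsOpen (Quotient.mk (rel p) '' {A | (A.1 : Set fan) ⊆ O}) :=
    fun O h1 h2 => opn p ((NonemptyCompacts.isOpen_subsets_of_isOpen h1).preimage continuous_subtype_val)
      fun A hA _ e _ => (h2 (hA e)).elim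
  let U : Set fan := {z | c * z.1.1 < z.1.2}
  let V : Set fan := {z | z.1.2 < c * z.1.1}
  have U1 : IsOpen U := isOpen_lt (by fun_prop) (by fun_prop)
  have V1 : IsOpen V := isOpen_lt (by fun_prop) (by fun_prop)
  have U2 : p ∉ U := by simp [U, p]
  have V2 : p ∉ V := by simp [V, p]
  have UV : Disjoint U V := disjoint_left.2 fun z h1 h2 => lt_asymm (show c * z.1.1 < z.1.2 from h1) h2
  obtain ⟨_, -, ⟨A, a1, rfl⟩, B, b1, e⟩ := M2.2 _ _ (op U U1 U2) (op V V1 V2) (fun z hz => by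
      induction z using Quotient.inductionOn with | _ A => ?_
      have e : p ∉ (A.1 : Set fan) := fun e => M4 (Quotient.sound (s := rel p) (a := A) (b := pt p) (Or.inr ⟨e, rfl⟩) ▸ hz)
      refine (A.2.subset_or_subset U1 V1 UV fun z hz => ?_).imp (fun h => ⟨A, h, rfl⟩) fun h => ⟨A, h, rfl⟩
      obtain ⟨_, ⟨t, s⟩, ⟨ht, hs⟩, rfl⟩ := z
      refine (lt_or_gt_of_ne fun e1 : c * s = s * t => ?_)
      obtain rfl : s = 0 := by_contra fun e2 => c3 (mul_left_cancel₀ e2 ((mul_comm s c).trans e1) ▸ ht)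
      exact e (by convert hz; simp))
    ⟨_, hn, pt ⟨_, m1 (Or.inr ⟨n, rfl⟩)⟩, singleton_subset_iff.2 ((mul_one c).trans_lt c2), rfl⟩
    ⟨_, interior_subset M3, pt ⟨_, m1 (Or.inl rfl)⟩, singleton_subset_iff.2 (c0.trans_eq (mul_one c).symm), rfl⟩
  rcases Quotient.exact e with rfl | e
  · obtain ⟨z, hz⟩ := B.1.nonempty
    exact disjoint_left.1 UV (a1 hz) (b1 hz)
  · exact V2 (b1 e.1)

end Pool.Agent.Results.MP_53bf97_gt.NotApo
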