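import Pool.Agent.H30.HSp

set_option autoImplicit false

namespace Pool.Agent.Results.MP_53bf97_gt.Semi

open Set Pool.Agent.H30.HSp

theorem result (X : Type) [MetricSpace X] [CompactSpace X] [ConnectedSpace X] [Nontrivial X] (p : X)
    (a b : HS p) (h : a ≠ b) : ApoAt a b ∨ ApoAt b a := by
  induction a using Quotient.inductionOn with | _ A => ?_
  induction b using Quotient.inductionOn with | _ B => ?_
  by_cases e1 : p ∈ (A.1 : Set X) <;> by_cases e2 : p ∈ (B.1 : Set X)
  · exact (h (Quotient.sound (Or.inr ⟨e1, e2⟩))).elim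
  · exact Or.inl (apo p e2 fun e => e2 (e e1))
  · exact Or.inr (apo p e1 fun e => e1 (e e2))
  by_cases e : A ≤ B
  · exact Or.inr (apo p e1 fun e' => h (congrArg _ (e.antisymm e')))
  · exact Or.inl (apo p e2 e)

end Pool.Agent.Results.MP_53bf97_gt.Semi
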